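import Pool.Agent.Helper40_Dio.MainF

/-! # MP_9ca527_nt, Q1: there are only finitely many counterexamples

A counterexample to Q1 is a Diophantine triple `a < b < c` with a positive integer `d` which
extends it and is neither `d₊` nor `d₋`.  We prove that every counterexample has `c ≤ C0` and
`d ≤ C0` for a constant `C0`. -/

set_option autoImplicit false

namespace Pool.Agent.Results.MP_9ca527_nt.FinitelyManyExceptions

open Pool.Agent.DIO

/-- There is a constant `C0` with the following property.  Let `a < b < c` be a Diophantine triple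
of positive integers, `r² = ab + 1`, `s² = ac + 1`, `t² = bc + 1`, and let the positive integer
`d ∉ {a, b, c}` extend it.  If `c > C0` or `d > C0`, then `d = d₊` or `d = d₋`. -/
theorem result :
    ∃ C0 : ℕ, ∀ a b c d r s t : ℕ, 0 < a → a < b → b < c →
      r * r = a * b + 1 → s * s = a * c + 1 → t * t = b * c + 1 →
      0 < d → d ≠ a → d ≠ b → d ≠ c →
      IsSquare (a * d + 1) → IsSquare (b * d + 1) → IsSquare (c * d + 1) →
      C0 < max c d →
      (d : ℤ) = a + b + c + 2 * a * b * c + 2 * r * s * t ∨
      (d : ℤ) = a + b + c + 2 * a * b * c - 2 * r * s * t := by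
  obtain ⟨C0, h0⟩ := fifS
  refine ⟨C0, fun a b c d r s t ha hab hbc hr hs ht hd hda hdb hdc sad sbd scd hC => ?_⟩
  have hrst : rst a b c = r * s * t := by
    unfold rst
    rw [← hr, ← hs, ← ht, Nat.sqrt_eq, Nat.sqrt_eq, Nat.sqrt_eq]
  have h1 := h0 a b c d ⟨ha, hab, hbc, ⟨r, hr.symm⟩, ⟨s, hs.symm⟩, ⟨t, ht.symm⟩⟩
    ⟨hd, hda, hdb, hdc, sad, sbd, scd⟩
  rw [hrst] at h1
  push_cast at h1
  by_contra h2
  have h3 := h1 (fun h => h2 (by
    rcases h with h | h
    · left; linarith
    · right; linarith))
  have h4 : max c d ≤ C0 := max_le h3.1 h3.2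
  omega

end Pool.Agent.Results.MP_9ca527_nt.FinitelyManyExceptions
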